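import Mathlib

namespace Pool.Agent.Results.MP_1fa864_co.FourSevenths

open Finset SimpleGraph

variable {V : Type} [Fintype V] [DecidableEq V]

/-- `f(N[v])`, the sum of `f` over the closed neighbourhood of `v`. -/
def nb (G : SimpleGraph V) [DecidableRel G.Adj] (f : V → ℤ) (v : V) : ℤ :=
  f v + ∑ u ∈ G.neighborFinset v, f u

/-- Signed dominating functions. -/
def IsSDF (G : SimpleGraph V) [DecidableRel G.Adj] (f : V → ℤ) : Prop :=
  (∀ v, f v = 1 ∨ f v = -1) ∧ ∀ v, 1 ≤ nb G f v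

/-- Minimal signed dominating functions. -/
def IsMinSDF (G : SimpleGraph V) [DecidableRel G.Adj] (f : V → ℤ) : Prop :=
  IsSDF G f ∧ ¬ ∃ g, IsSDF G g ∧ g ≠ f ∧ ∀ v, g v ≤ f v

/-- The signed domination number. -/
noncomputable def gammaS (G : SimpleGraph V) [DecidableRel G.Adj] : ℤ :=
  sInf {w | ∃ f, IsSDF G f ∧ ∑ v, f v = w}

/-- The upper signed domination number. -/
noncomputable def upperS (G : SimpleGraph V) [DecidableRel G.Adj] : ℤ :=
  sSup {w | ∃ f, IsMinSDF G f ∧ ∑ v, f v = w}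

def sg (b : Bool) : ℤ := if b then 1 else -1

def bt (b : Bool) : ℕ := if b then 1 else 0

def tphi : List ℤ := [-44, -26, -20, -16, -28, -26, -20, -8, -44, -26, -16, -16, -28, -10, -16, -8, -28, -26, -20,
  -8, -40, -38, -20, -20, -28, 2, -16, -2, -12, -10, -16, -4, -44, -14, -20, -16, -28, -14, -20,
  -8, -44, -14, -16, -16, -28, 2, -16, -8, -28, -26, -20, -8, -40, -38, -20, -20, -28, 2, -16,
  -2, -12, -10, -16, -4]

def tal : List ℤ := [8, 0, 0, 4, 0, 0, 0, 0, 8, 8, 0, 4, 8, 0, 0, 0, 0, -6, 0, 0, -6, -6, 0, -14, 8, 0, 0, -2, 0,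
  -20, -2, -2, 8, 0, 0, 4, 0, 0, 0, 0, 8, 8, 0, 4, 8, 0, 0, 4, 0, -6, 0, 0, -6, -6, 0, -14, 8,
  0, 0, -2, 0, -20, -2, -2, 0, 0, 0, 0, 0, 0, 0, 0, 0, 0, 0, 0, 0, 0, 0, 0, 0, 0, -2, -2, 0, 0,
  -2, -2, 0, 0, -2, -2, 0, 0, -2, -2, 0, 0, 0, 0, 0, 0, 0, 0, 0, 0, 0, 0, 0, 0, 0, 0, 0, 0, -2,
  -2, 0, 0, -2, -2, 0, 0, -2, -2, 0, 0, -2, -2, 8, 0, 0, 4, 0, 0, 0, 0, 8, 8, 0, 4, 8, 0, 0, 0,
  0, -2, 0, 0, -2, -4, 0, -4, 6, 0, 0, -1, 0, -2, -1, -2, 8, 0, 0, 4, 0, 0, 0, 0, 8, 8, 0, 4, 8,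
  0, 0, 4, 0, -2, 0, 0, -2, -4, 0, -4, 6, 0, 0, -1, 0, -2, -1, -2, 0, 0, 0, 0, 0, 0, 0, 0, 0, 0,
  0, 0, 0, 0, 0, 0, 0, 0, -2, -1, 0, 0, -2, -1, 0, 0, -2, -1, 0, 0, -2, -1, 0, 0, 0, 0, 0, 0, 0,
  0, 0, 0, 0, 0, 0, 0, 0, 0, 0, 0, -2, -1, 0, 0, -2, -1, 0, 0, -2, -1, 0, 0, -2, -1]

def tga : List ℤ := [0, 8, 2, 0, 8, 8, 2, 0, 0, 0, 2, 0, 0, 0, 2, 0, 8, 14, 2, 4, 14, 14, 2, 2, 0, 8, 2, 0, 8, 0, 0,
  0, 0, 8, 2, 0, 8, 8, 2, 4, 0, 0, 2, 0, 0, 8, 2, 0, 8, 14, 2, 4, 14, 14, 2, 2, 0, 8, 2, 0, 8,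
  0, 0, 0, 0, 7, 2, 0, 0, 7, 2, 0, 0, 7, 2, 0, 0, 7, 2, 0, 0, 7, 0, 0, 0, 7, 0, 0, 0, 7, 0, 0,
  0, 7, 0, 0, 0, 7, 2, 0, 0, 7, 2, 0, 0, 7, 2, 0, 0, 7, 2, 0, 0, 7, 0, 0, 0, 7, 0, 0, 0, 7, 0,
  0, 0, 7, 0, 0, 0, 8, 2, 0, 8, 8, 2, 0, 0, 0, 2, 0, 0, 0, 2, 0, 6, 10, 2, 2, 10, 12, 2, 8, 0,
  4, 2, 1, 4, 10, 1, 0, 0, 8, 2, 0, 8, 8, 2, 4, 0, 0, 2, 0, 0, 8, 2, 0, 6, 10, 2, 2, 10, 12, 2,
  8, 0, 4, 2, 1, 4, 10, 1, 0, 0, 7, 2, 0, 0, 7, 2, 0, 0, 7, 2, 0, 0, 7, 2, 0, 0, 5, 0, 1, 0, 5,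
  0, 1, 0, 5, 0, 1, 0, 5, 0, 1, 0, 7, 2, 0, 0, 7, 2, 0, 0, 7, 2, 0, 0, 7, 2, 0, 0, 5, 0, 1, 0,
  5, 0, 1, 0, 5, 0, 1, 0, 5, 0, 1]

def tde : List ℤ := [0, 12, 0, 0, 0, 12, 0, 4, 0, 12, 0, 0, 0, 20, 0, 4, 0, 0, 0, 0, 0, 0, 0, 0, 0, 0, 0, 0, 0, 0,
  0, 0, 0, 0, 0, 0, 0, 0, 0, 0, 0, 0, 0, 0, 0, 0, 0, 0, 0, 0, 0, 0, 0, 0, 0, 0, 0, 0, 0, 0, 0,
  0, 0, 0, 0, 0, 0, 0, 0, 0, 0, 0, 0, 0, 0, 0, 0, 0, 0, 0, 0, 0, 0, 0, 0, 0, 0, 0, 0, 0, 0, 0,
  0, 0, 0, 0, 0, 0, 0, 0, 0, 0, 0, 0, 0, 0, 0, 0, 0, 0, 0, 0, 0, 0, 0, 0, 0, 0, 0, 0, 0, 0, 0,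
  0, 0, 0, 0, 0, 0, 12, 0, 0, 0, 12, 0, 4, 0, 12, 0, 0, 0, 20, 0, 4, 0, 0, 0, 0, 0, 0, 0, 0, 0,
  0, 0, 0, 0, 0, 0, 0, 0, 0, 0, 0, 0, 0, 0, 0, 0, 0, 0, 0, 0, 0, 0, 0, 0, 0, 0, 0, 0, 0, 0, 0,
  0, 0, 0, 0, 0, 0, 0, 0, 0, 0, 0, 0, 0, 0, 0, 0, 0, 0, 0, 0, 0, 0, 0, 0, 0, 0, 0, 0, 0, 0, 0,
  0, 0, 0, 0, 0, 0, 0, 0, 0, 0, 0, 0, 0, 0, 0, 0, 0, 0, 0, 0, 0, 0, 0, 0, 0, 0, 0, 0, 0, 0, 0,
  0, 0, 0, 0, 0, 0, 0, 0, 0, 0]

def ix (a b pa pb t tp : Bool) : ℕ := bt a + 2 * bt b + 4 * bt pa + 8 * bt pb + 16 * bt t + 32 * bt tp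

def phi (a b pa pb t tp : Bool) : ℤ := tphi.getD (ix a b pa pb t tp) 0

def look (l : List ℤ) (a b pa pb t tp rt k : Bool) : ℤ :=
  l.getD (ix a b pa pb t tp + 64 * bt rt + 128 * bt k) 0

lemma cert : ∀ a b pa pb t tp rt k : Bool,
    (∀ x y z : Bool, phi x y a b z t + look tal a b pa pb t tp rt k * sg x +
      look tga a b pa pb t tp rt k * sg y + look tde a b pa pb t tp rt k * (bt z : ℤ) ≤ 0) ∧
    0 ≤ look tga a b pa pb t tp rt k ∧ 0 ≤ look tde a b pa pb t tp rt k ∧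
    (t = false → 0 ≤ look tal a b pa pb t tp rt k) ∧
    (look tde a b pa pb t tp rt k = 0 ∨ (a = true ∧ t = false ∧ ¬ (rt = false ∧ tp = true))) ∧
    7 * (sg a - sg b) - 4
      - look tal a b pa pb t tp rt k *
        ((if t then (if k then 2 else 1) else 3) - sg a - (if rt then 0 else sg pa))
      - look tga a b pa pb t tp rt k *
        ((if t then (if k then 2 else 1) else 1) - sg b - (if rt then 0 else sg pb))
      - look tde a b pa pb t tp rt k ≤ (if rt then -4 else phi a b pa pb t tp) := by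
  decide +kernel

lemma vert (C : Finset V) (a b t : V → Bool) (a0 b0 pa pb t0 tp rt : Bool)
    (h1 : 1 ≤ sg a0 + ((if rt then 0 else sg pa) + ∑ c ∈ C, sg (a c)))
    (h2 : 1 ≤ sg b0 + ((if rt then 0 else sg pb) + ∑ c ∈ C, sg (b c)))
    (ht : t0 = true ↔ sg a0 + ((if rt then 0 else sg pa) + ∑ c ∈ C, sg (a c)) ≤ 2)
    (hn : a0 = true → t0 = true ∨ (rt = false ∧ tp = true) ∨ ∃ c ∈ C, t c = true) :
    7 * (sg a0 - sg b0) - 4 + ∑ c ∈ C, phi (a c) (b c) a0 b0 (t c) t0 ≤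
      (if rt then -4 else phi a0 b0 pa pb t0 tp) := by
  have ev : ∀ x y : Bool, (2 : ℤ) ∣ sg x - sg y := by decide
  have hp : (2 : ℤ) ∣ ∑ c ∈ C, sg (a c) - ∑ c ∈ C, sg (b c) := by
    rw [← Finset.sum_sub_distrib]
    exact Finset.dvd_sum (fun c _ => ev _ _)
  have hp0 := ev a0 b0
  have hp1 : (2 : ℤ) ∣ (if rt then 0 else sg pa) - (if rt then 0 else sg pb) := by
    cases rt
    · exact ev _ _
    · simp
  obtain ⟨k, hk⟩ : ∃ k : Bool, k = true ↔
      sg a0 + ((if rt then 0 else sg pa) + ∑ c ∈ C, sg (a c)) = 2 := ⟨decide _, decide_eq_true_iff⟩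
  obtain ⟨c1, c2, c3, c4, c5, c6⟩ := cert a0 b0 pa pb t0 tp rt k
  generalize look tal a0 b0 pa pb t0 tp rt k = al at *
  generalize look tga a0 b0 pa pb t0 tp rt k = ga at *
  generalize look tde a0 b0 pa pb t0 tp rt k = de at *
  have hs : ∑ c ∈ C, (phi (a c) (b c) a0 b0 (t c) t0 + al * sg (a c) + ga * sg (b c) +
      de * (bt (t c) : ℤ)) ≤ 0 := Finset.sum_nonpos (fun c _ => c1 _ _ _)
  simp only [Finset.sum_add_distrib, ← Finset.mul_sum] at hs
  have e3 : 0 ≤ de * (∑ c ∈ C, (bt (t c) : ℤ) - 1) := by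
    rcases c5 with h | ⟨h, h', h''⟩
    · simp [h]
    · rcases hn h with h3 | h3 | ⟨c, hc, h3⟩
      · rw [h'] at h3; exact absurd h3 (by simp)
      · exact absurd h3 h''
      · apply mul_nonneg c3
        have := Finset.single_le_sum (f := fun c => (bt (t c) : ℤ)) (fun c _ => by positivity) hc
        simp only [h3, bt, if_true, Nat.cast_one] at this
        unfold bt
        linarith
  generalize (if rt then 0 else sg pa) = p1 at *
  generalize (if rt then 0 else sg pb) = p2 at *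
  generalize ∑ c ∈ C, sg (a c) = S1 at *
  generalize ∑ c ∈ C, sg (b c) = S2 at *
  have e1 : 0 ≤ al * (sg a0 + (p1 + S1) - (if t0 then (if k then 2 else 1) else 3)) := by
    cases t0
    · apply mul_nonneg (c4 rfl)
      have : ¬ (sg a0 + (p1 + S1) ≤ 2) := fun h => absurd (ht.2 h) (by simp)
      simp only [Bool.false_eq_true, if_false]
      omega
    · have h3 := ht.1 rfl
      cases k
      · have : ¬ (sg a0 + (p1 + S1) = 2) := fun h => absurd (hk.2 h) (by simp)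
        have h4 : sg a0 + (p1 + S1) = 1 := by omega
        simp [h4]
      · simp [hk.1 rfl]
  have e2 : 0 ≤ ga * (sg b0 + (p2 + S2) - (if t0 then (if k then 2 else 1) else 1)) := by
    apply mul_nonneg c2
    cases t0
    · simp only [Bool.false_eq_true, if_false]
      omega
    · cases k
      · simp only [Bool.false_eq_true, if_false, if_true]
        omega
      · have := hk.1 rfl
        simp only [if_true]
        omega
  linarith

lemma parent {G : SimpleGraph V} (hT : G.IsTree) (r : V) : ∃ par : V → V,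
    (∀ v, v ≠ r → G.Adj v (par v) ∧ G.dist r (par v) + 1 = G.dist r v) ∧
    ∀ u v, G.Adj u v → G.dist r v + 1 = G.dist r u → par u = v := by
  have hc := hT.connected
  have ex : ∀ v, ∃ a, v ≠ r → G.Adj v a ∧ G.dist r a + 1 = G.dist r v := by
    intro v
    by_cases hv : v = r
    · exact ⟨v, fun h => absurd hv h⟩
    obtain ⟨p, hp⟩ := hc.exists_walk_length_eq_dist v r
    cases p with
    | nil => exact absurd rfl hv
    | cons h q =>
      refine ⟨_, fun _ => ⟨h, ?_⟩⟩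
      have h1 := dist_le q
      rw [Walk.length_cons, SimpleGraph.dist_comm] at hp
      rw [SimpleGraph.dist_comm] at h1
      rcases hT.dist_eq_dist_add_one_of_adj r h with h2 | h2 <;> omega
  choose par hpar using ex
  refine ⟨par, hpar, fun u v h hd => ?_⟩
  have hu : u ≠ r := by
    rintro rfl
    rw [SimpleGraph.dist_self] at hd
    omega
  obtain ⟨h1, h2⟩ := hpar u hu
  obtain ⟨p, hp⟩ := hc.exists_walk_length_eq_dist (par u) r
  obtain ⟨q, hq⟩ := hc.exists_walk_length_eq_dist v r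
  rw [SimpleGraph.dist_comm] at hp hq
  have e : Walk.cons h1 p = Walk.cons h q := (hT.existsUnique_path u r).unique
    (Walk.isPath_of_length_eq_dist _ (by rw [Walk.length_cons, hp, h2, SimpleGraph.dist_comm]))
    (Walk.isPath_of_length_eq_dist _ (by rw [Walk.length_cons, hq, hd, SimpleGraph.dist_comm]))
  have := congrArg (fun w : G.Walk u r => w.getVert 1) e
  simpa using this

lemma tight {G : SimpleGraph V} [DecidableRel G.Adj] {f : V → ℤ} (hf : IsMinSDF G f) {v : V}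
    (hv : f v = 1) : ∃ u, (u = v ∨ G.Adj v u) ∧ nb G f u ≤ 2 := by
  by_contra hcon
  push Not at hcon
  apply hf.2
  refine ⟨fun u => f u - 2 * (if u = v then 1 else 0), ⟨fun u => ?_, fun u => ?_⟩, ?_, fun u => ?_⟩
  · by_cases h : u = v
    · right; simp [h, hv]
    · simpa [h] using hf.1.1 u
  · have h1 := hf.1.2 u
    unfold nb at h1 ⊢
    simp only [Finset.sum_sub_distrib, ← Finset.mul_sum, Finset.sum_ite_eq', mem_neighborFinset]
    by_cases h : u = v
    · have h2 := hcon u (Or.inl h)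
      unfold nb at h2
      rw [if_pos h, if_neg (by rw [h]; exact G.irrefl)]
      omega
    · by_cases h' : G.Adj u v
      · have h2 := hcon u (Or.inr h'.symm)
        unfold nb at h2
        rw [if_neg h, if_pos h']
        omega
      · rw [if_neg h, if_neg h']
        omega
  · intro e
    have := congrFun e v
    simp at this
  · beta_reduce
    split_ifs <;> omega

lemma main {G : SimpleGraph V} [DecidableRel G.Adj] (hT : G.IsTree) {f g : V → ℤ}
    (hf : IsMinSDF G f) (hg : IsSDF G g) :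
    7 * (∑ v, f v - ∑ v, g v) ≤ 4 * (Fintype.card V : ℤ) - 4 := by
  obtain ⟨r⟩ := hT.connected.nonempty
  obtain ⟨par, hp1, hp2⟩ := parent hT r
  have hsum : ∀ (h : V → ℤ) (v : V), ∑ u ∈ G.neighborFinset v, h u =
      (if decide (v = r) then 0 else h (par v)) +
        ∑ c ∈ (univ.erase r).filter (fun c => par c = v), h c := by
    intro h v
    by_cases hv : v = r
    · rw [hv]
      simp only [decide_true, if_true, zero_add]
      refine Finset.sum_congr ?_ (fun _ _ => rfl)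
      ext c
      simp only [mem_neighborFinset, mem_filter, mem_erase, mem_univ, and_true]
      constructor
      · intro hc
        refine ⟨hc.ne', hp2 c r hc.symm ?_⟩
        rcases hT.dist_eq_dist_add_one_of_adj r hc with h2 | h2
        · rw [SimpleGraph.dist_self] at h2; omega
        · omega
      · rintro ⟨h1, h2⟩
        exact (h2 ▸ (hp1 c h1).1).symm
    · simp only [hv, decide_false, Bool.false_eq_true, if_false]
      have hni : par v ∉ (univ.erase r).filter (fun c => par c = v) := by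
        intro hm
        simp only [mem_filter, mem_erase, mem_univ, and_true] at hm
        have h1 := (hp1 v hv).2
        have h2 := (hp1 _ hm.1).2
        rw [hm.2] at h2
        omega
      rw [← Finset.sum_insert hni]
      refine Finset.sum_congr ?_ (fun _ _ => rfl)
      ext c
      simp only [mem_neighborFinset, mem_insert, mem_filter, mem_erase, mem_univ, and_true]
      constructor
      · intro hc
        rcases hT.dist_eq_dist_add_one_of_adj r hc with h2 | h2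
        · exact Or.inl (hp2 v c hc h2.symm).symm
        · refine Or.inr ⟨?_, hp2 c v hc.symm h2.symm⟩
          rintro rfl
          rw [SimpleGraph.dist_self] at h2
          omega
      · rintro (rfl | ⟨h1, h2⟩)
        · exact (hp1 v hv).1
        · exact (h2 ▸ (hp1 c h1).1).symm
  obtain ⟨a, ha⟩ : ∃ a : V → Bool, ∀ v, f v = sg (a v) :=
    ⟨fun v => decide (f v = 1), fun v => by rcases hf.1.1 v with h | h <;> simp [sg, h]⟩
  obtain ⟨b, hb⟩ : ∃ b : V → Bool, ∀ v, g v = sg (b v) :=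
    ⟨fun v => decide (g v = 1), fun v => by rcases hg.1 v with h | h <;> simp [sg, h]⟩
  obtain ⟨t, ht⟩ : ∃ t : V → Bool, ∀ v, t v = true ↔ nb G f v ≤ 2 :=
    ⟨fun v => decide (nb G f v ≤ 2), fun v => decide_eq_true_iff⟩
  have key : ∀ v, 7 * (f v - g v) - 4 + ∑ c ∈ (univ.erase r).filter (fun c => par c = v),
      phi (a c) (b c) (a (par c)) (b (par c)) (t c) (t (par c)) ≤
      (if decide (v = r) then -4 else phi (a v) (b v) (a (par v)) (b (par v)) (t v) (t (par v))) := by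
    intro v
    have e1 : nb G f v = sg (a v) + ((if decide (v = r) then 0 else sg (a (par v))) +
        ∑ c ∈ (univ.erase r).filter (fun c => par c = v), sg (a c)) := by
      unfold nb
      rw [hsum]
      simp only [ha]
    have e2 : nb G g v = sg (b v) + ((if decide (v = r) then 0 else sg (b (par v))) +
        ∑ c ∈ (univ.erase r).filter (fun c => par c = v), sg (b c)) := by
      unfold nb
      rw [hsum]
      simp only [hb]
    have h := vert ((univ.erase r).filter (fun c => par c = v)) a b t (a v) (b v) (a (par v))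
      (b (par v)) (t v) (t (par v)) (decide (v = r)) (e1 ▸ hf.1.2 v) (e2 ▸ hg.2 v) (e1 ▸ ht v) (by
        intro hav
        obtain ⟨u, hu, hu'⟩ := tight hf (v := v) (by rw [ha, hav]; rfl)
        rcases hu with rfl | hu
        · exact Or.inl ((ht _).2 hu')
        · right
          rcases hT.dist_eq_dist_add_one_of_adj r hu with h2 | h2
          · left
            refine ⟨decide_eq_false ?_, ?_⟩
            · rintro rfl
              rw [SimpleGraph.dist_self] at h2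
              omega
            · rw [hp2 v u hu h2.symm]
              exact (ht _).2 hu'
          · right
            refine ⟨u, ?_, (ht _).2 hu'⟩
            simp only [mem_filter, mem_erase, mem_univ, and_true]
            refine ⟨?_, hp2 u v hu.symm h2.symm⟩
            rintro rfl
            rw [SimpleGraph.dist_self] at h2
            omega)
    rw [ha, hb, Finset.sum_congr rfl (fun c hc => by rw [(mem_filter.1 hc).2])]
    exact h
  have tot := Finset.sum_le_sum (fun v (_ : v ∈ (univ : Finset V)) => key v)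
  rw [Finset.sum_add_distrib, Finset.sum_fiberwise,
    ← Finset.add_sum_erase _ (fun v => if decide (v = r) then (-4 : ℤ) else
      phi (a v) (b v) (a (par v)) (b (par v)) (t v) (t (par v))) (mem_univ r)] at tot
  have e : ∑ v ∈ univ.erase r, (if decide (v = r) then (-4 : ℤ) else
      phi (a v) (b v) (a (par v)) (b (par v)) (t v) (t (par v))) =
      ∑ v ∈ univ.erase r, phi (a v) (b v) (a (par v)) (b (par v)) (t v) (t (par v)) :=
    Finset.sum_congr rfl (fun v hv => by simp [(mem_erase.1 hv).1])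
  rw [e] at tot
  simp only [decide_true, if_true, Finset.sum_sub_distrib, ← Finset.mul_sum, sum_const,
    card_univ, nsmul_eq_mul] at tot
  linarith

theorem result {V : Type} [Fintype V] [DecidableEq V] (G : SimpleGraph V) [DecidableRel G.Adj]
    (hT : G.IsTree) : 7 * (upperS G - gammaS G) ≤ 4 * (Fintype.card V : ℤ) - 4 ∧
      ((upperS G - gammaS G : ℤ) : ℚ) / (Fintype.card V : ℚ) < 4 / 7 := by
  have hlo : BddBelow {w | ∃ f, IsSDF G f ∧ ∑ v, f v = w} := by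
    refine ⟨∑ _v : V, (-1 : ℤ), ?_⟩
    rintro w ⟨f, hf, rfl⟩
    exact Finset.sum_le_sum (fun v _ => by rcases hf.1 v with h | h <;> omega)
  have hhi : BddAbove {w | ∃ f, IsMinSDF G f ∧ ∑ v, f v = w} := by
    refine ⟨∑ _v : V, (1 : ℤ), ?_⟩
    rintro w ⟨f, hf, rfl⟩
    exact Finset.sum_le_sum (fun v _ => by rcases hf.1.1 v with h | h <;> omega)
  have hne : {w | ∃ f, IsSDF G f ∧ ∑ v, f v = w}.Nonempty := by
    refine ⟨_, fun _ => 1, ⟨fun _ => Or.inl rfl, fun v => ?_⟩, rfl⟩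
    unfold nb
    have : (0 : ℤ) ≤ ∑ _u ∈ G.neighborFinset v, (1 : ℤ) := Finset.sum_nonneg (fun _ _ => one_pos.le)
    linarith
  obtain ⟨g, hg, hg'⟩ := Int.csInf_mem hne hlo
  have hmin : IsMinSDF G g := by
    refine ⟨hg, ?_⟩
    rintro ⟨h, hh, hne', hle⟩
    have h1 := csInf_le hlo (show ∑ v, h v ∈ {w | ∃ f, IsSDF G f ∧ ∑ v, f v = w} from ⟨h, hh, rfl⟩)
    obtain ⟨v, hv⟩ := Function.ne_iff.1 hne'
    have h2 : ∑ v, h v < ∑ v, g v :=
      Finset.sum_lt_sum (fun v _ => hle v) ⟨v, mem_univ _, lt_of_le_of_ne (hle v) hv⟩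
    omega
  obtain ⟨f, hf, hf'⟩ := Int.csSup_mem (s := {w | ∃ f, IsMinSDF G f ∧ ∑ v, f v = w})
    ⟨_, g, hmin, rfl⟩ hhi
  have h := main hT hf hg
  rw [hf', hg'] at h
  refine ⟨h, ?_⟩
  have := hT.connected.nonempty
  have hpos : (0 : ℚ) < Fintype.card V := by exact_mod_cast Fintype.card_pos
  rw [div_lt_iff₀ hpos]
  have h' : (7 : ℚ) * ((upperS G - gammaS G : ℤ) : ℚ) ≤ 4 * (Fintype.card V : ℚ) - 4 := by
    exact_mod_cast h
  linarith

end Pool.Agent.Results.MP_1fa864_co.FourSevenths
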